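import Pool.Agent.helper43.TG.Spec

set_option autoImplicit false

namespace Pool.Agent.helper43.TG

open scoped RealInnerProductSpace

theorem t_cen : CEN := by
  intro n t x Y ht hY hx hxy hyy
  have ht0 : (0 : ℝ) < t := by exact_mod_cast ht
  set c : E n := (1 / (t : ℝ)) • ∑ i, x i with hc
  set r2 : ℝ := (1 / (t : ℝ)) ^ 2 * ∑ i, ∑ j, (4 - dist (x i) (x j) ^ 2 / 2) with hr2
  have hin : ∀ y ∈ Y, ∀ i j, ⟪y - x i, y - x j⟫ = 4 - dist (x i) (x j) ^ 2 / 2 := by
    intro y hy i j
    have h1 : ‖y - x i‖ = 2 := by rw [← dist_eq_norm, dist_comm]; exact hxy y hy i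
    have h2 : ‖y - x j‖ = 2 := by rw [← dist_eq_norm, dist_comm]; exact hxy y hy j
    have h3 : dist (x i) (x j) = ‖(y - x i) - (y - x j)‖ := by
      rw [dist_comm, dist_eq_norm]; congr 1; abel
    have h4 := norm_sub_sq_real (y - x i) (y - x j)
    rw [h3, h4, h1, h2]
    ring
  have hyc : ∀ y : E n, y - c = (1 / (t : ℝ)) • ∑ i, (y - x i) := by
    intro y
    rw [Finset.sum_sub_distrib, smul_sub, ← hc]
    simp only [Finset.sum_const, Finset.card_univ, Fintype.card_fin]
    rw [← Nat.cast_smul_eq_nsmul ℝ, smul_smul]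
    have : 1 / (t : ℝ) * t = 1 := by field_simp
    rw [this, one_smul]
  have hn : ∀ y ∈ Y, ‖y - c‖ ^ 2 = r2 := by
    intro y hy
    rw [← real_inner_self_eq_norm_sq, hyc y, real_inner_smul_left, real_inner_smul_right,
      sum_inner]
    rw [hr2, sq, mul_assoc]
    congr 2
    refine Finset.sum_congr rfl fun i _ => ?_
    rw [inner_sum]
    exact Finset.sum_congr rfl fun j _ => hin y hy i j
  have hle : r2 ≤ 2 * ((t : ℝ) + 1) / t := by
    have h1 : ∑ i, ∑ j, (4 - dist (x i) (x j) ^ 2 / 2) ≤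
        ∑ i : Fin t, ∑ j : Fin t, (if i = j then (4 : ℝ) else 2) := by
      refine Finset.sum_le_sum fun i _ => Finset.sum_le_sum fun j _ => ?_
      split_ifs with hij
      · have := sq_nonneg (dist (x i) (x j))
        linarith
      · have := hx i j hij
        nlinarith
    have h2 : ∑ i : Fin t, ∑ j : Fin t, (if i = j then (4 : ℝ) else 2) = 2 * (t : ℝ) ^ 2 + 2 * t := by
      have : ∀ i : Fin t, ∑ j : Fin t, (if i = j then (4 : ℝ) else 2) = 2 * (t : ℝ) + 2 := by
        intro i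
        have e1 : ∀ j : Fin t, (if i = j then (4 : ℝ) else 2) = 2 + (if i = j then (2 : ℝ) else 0) := by
          intro j; split_ifs <;> norm_num
        simp only [e1, Finset.sum_add_distrib, Finset.sum_const, Finset.card_univ,
          Fintype.card_fin, nsmul_eq_mul, Finset.sum_ite_eq, Finset.mem_univ, if_true]
        ring
      simp only [this, Finset.sum_const, Finset.card_univ, Fintype.card_fin, nsmul_eq_mul]
      ring
    rw [hr2]
    rw [h2] at h1
    calc (1 / (t : ℝ)) ^ 2 * ∑ i, ∑ j, (4 - dist (x i) (x j) ^ 2 / 2)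
        ≤ (1 / (t : ℝ)) ^ 2 * (2 * (t : ℝ) ^ 2 + 2 * t) := by
          apply mul_le_mul_of_nonneg_left h1 (by positivity)
      _ = 2 * ((t : ℝ) + 1) / t := by field_simp
  have hinner : ∀ y ∈ Y, ∀ y' ∈ Y, y ≠ y' → ⟪y - c, y' - c⟫ ≤ r2 - 2 := by
    intro y hy y' hy' hne
    have h1 := norm_sub_sq_real (y - c) (y' - c)
    rw [hn y hy, hn y' hy'] at h1
    have h2 : (y - c) - (y' - c) = y - y' := by abel
    rw [h2, ← dist_eq_norm] at h1
    have h3 := hyy y hy y' hy' hne
    nlinarith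
  have hr0 : 0 < r2 := by
    obtain ⟨a, ha, b, hb, hab⟩ := Finset.one_lt_card.1 (by omega : 1 < Y.card)
    by_contra hcon
    have hz : ∀ y ∈ Y, y = c := by
      intro y hy
      have h1 := hn y hy
      have h2 : ‖y - c‖ ^ 2 ≤ 0 := by rw [h1]; linarith
      have h3 : ‖y - c‖ = 0 := by
        have := sq_nonneg ‖y - c‖
        exact pow_eq_zero_iff (two_ne_zero) |>.1 (le_antisymm h2 this)
      exact sub_eq_zero.1 (norm_eq_zero.1 h3)
    exact hab ((hz a ha).trans (hz b hb).symm)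
  have hs0 : 0 < Real.sqrt r2 := Real.sqrt_pos.2 hr0
  refine ⟨fun y => (1 / Real.sqrt r2) • (y - c), ?_, ?_⟩
  · intro y hy
    rw [norm_smul]
    have h1 : ‖y - c‖ = Real.sqrt r2 := by
      rw [← hn y hy, Real.sqrt_sq (norm_nonneg _)]
    rw [h1, Real.norm_eq_abs, abs_of_pos (by positivity)]
    field_simp
  · intro y hy y' hy' hne
    rw [real_inner_smul_left, real_inner_smul_right]
    have h1 := hinner y hy y' hy' hne
    have h2 : 1 / Real.sqrt r2 * (1 / Real.sqrt r2 * ⟪y - c, y' - c⟫) = ⟪y - c, y' - c⟫ / r2 := by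
      have : Real.sqrt r2 * Real.sqrt r2 = r2 := Real.mul_self_sqrt hr0.le
      field_simp
      rw [sq, this]
      ring
    rw [h2]
    rw [div_le_iff₀ hr0]
    have h3 : r2 - 2 ≤ 1 / ((t : ℝ) + 1) * r2 := by
      have h4 : r2 * t ≤ 2 * ((t : ℝ) + 1) := by
        rwa [le_div_iff₀ ht0] at hle
      have h5 : (0 : ℝ) < (t : ℝ) + 1 := by positivity
      rw [div_mul_eq_mul_div, one_mul, le_div_iff₀ h5]
      nlinarith
    linarith

end Pool.Agent.helper43.TG
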