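import Pool.Agent.helper43.TG.Spec

set_option autoImplicit false

namespace Pool.Agent.helper43.TG

open Pool.Agent.helper70.Sachs (IsPacking touchingGraph chi)

theorem t_cpt : CPT := by
  intro n k M h
  refine SimpleGraph.nonempty_hom_of_forall_finite_subgraph_hom ?_
  intro G' hfin
  apply Classical.choice
  classical
  let A : Finset M := hfin.toFinset
  let F : Finset (E n) := A.image (fun x : M => (x : E n))
  have hF : (F : Set (E n)) ⊆ M := by
    intro x hx
    simp only [F, Finset.coe_image, Set.mem_image] at hx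
    obtain ⟨y, _, rfl⟩ := hx
    exact y.2
  obtain ⟨col⟩ := h F hF
  have hmem : ∀ x : G'.verts, ((x : M) : E n) ∈ (F : Set (E n)) := by
    intro x
    simp only [F, Finset.coe_image, Set.mem_image]
    exact ⟨x.1, by simp [A, x.2], rfl⟩
  refine ⟨⟨fun x => col ⟨((x : M) : E n), hmem x⟩, ?_⟩⟩
  intro x y hxy
  apply col.map_rel
  have h2 : G'.Adj x.1 y.1 := hxy
  have h3 : (touchingGraph M).Adj x.1 y.1 := G'.adj_sub h2
  exact h3

end Pool.Agent.helper43.TG
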