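import Mathlib
import Pool.Agent.helper70.SA.Defs

/-!
# Touching graphs of unit spheres: definitions for the upper bound

`helper43`, problem MP_facb47_co. `IsPacking`, `touchingGraph`, `chi` are those of `helper70`.
-/

namespace Pool.Agent.helper43.TG

/-- Euclidean `n`-space -/
abbrev E (n : ℕ) := EuclideanSpace ℝ (Fin n)

/-- a kissing configuration: finitely many centres of unit spheres which all touch the unit sphere
around the origin and of which no two share an interior point -/
def IsKissing {n : ℕ} (S : Finset (E n)) : Prop :=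
  (∀ x ∈ S, ‖x‖ = 2) ∧ ∀ x ∈ S, ∀ y ∈ S, x ≠ y → 2 ≤ dist x y

/-- the kissing number of `ℝⁿ` -/
noncomputable def tau (n : ℕ) : ℕ := sSup {m : ℕ | ∃ S : Finset (E n), IsKissing S ∧ S.card = m}

section Col

variable {V : Type} [Fintype V] [DecidableEq V] (G : SimpleGraph V) [DecidableRel G.Adj] (k : ℕ)

/-- the maps `V → Fin k` which are proper colourings on the vertex set `W` -/
def prop (W : Finset V) : Finset (V → Fin k) :=
  Finset.univ.filter (fun c => ∀ x ∈ W, ∀ y ∈ W, G.Adj x y → c x ≠ c y)

/-- the colours which do not occur under `c` at the neighbours of `u` in `S` -/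
def free (S : Finset V) (c : V → Fin k) (u : V) : Finset (Fin k) :=
  Finset.univ.filter (fun g => ∀ y ∈ S, G.Adj u y → c y ≠ g)

end Col

end Pool.Agent.helper43.TG
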