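import Pool.Agent.helper43.TG.Spec

set_option autoImplicit false

namespace Pool.Agent.helper43.TG

open MeasureTheory

theorem t_kbd : KBD := by
  intro n S hS
  set μ : Measure (E n) := volume with hμ
  have hfr : Module.finrank ℝ (E n) = n := finrank_euclideanSpace_fin
  set v := μ (Metric.ball (0 : E n) 1) with hv
  have hv0 : v ≠ 0 := (Metric.measure_ball_pos μ _ one_pos).ne'
  have hvt : v ≠ ⊤ := measure_ball_lt_top.ne
  have h1 : ∀ x : E n, μ (Metric.ball x 1) = v := by
    intro x
    rw [Measure.addHaar_ball_of_pos μ x zero_lt_one]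
    simp [hv]
  have h3 : μ (Metric.ball (0 : E n) 3) = ENNReal.ofReal (3 ^ n) * v := by
    rw [Measure.addHaar_ball_of_pos μ (0 : E n) (by norm_num : (0 : ℝ) < 3), hfr]
  have hdis : Set.PairwiseDisjoint (S : Set (E n)) (fun x => Metric.ball x 1) := by
    intro x hx y hy hxy
    apply Metric.ball_disjoint_ball
    have := hS.2 x hx y hy hxy
    linarith
  have hsub : (⋃ x ∈ S, Metric.ball x 1) ⊆ Metric.ball (0 : E n) 3 := by
    intro y hy
    simp only [Set.mem_iUnion, Metric.mem_ball, exists_prop] at hy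
    obtain ⟨x, hx, hyx⟩ := hy
    rw [Metric.mem_ball, dist_zero_right]
    have h4 := hS.1 x hx
    have h5 : ‖y‖ ≤ ‖y - x‖ + ‖x‖ := by
      have := norm_add_le (y - x) x
      simpa using this
    rw [dist_eq_norm] at hyx
    linarith
  have h6 : (S.card : ENNReal) * v ≤ ENNReal.ofReal (3 ^ n) * v := by
    calc (S.card : ENNReal) * v = ∑ x ∈ S, μ (Metric.ball x 1) := by
          simp [h1]
      _ = μ (⋃ x ∈ S, Metric.ball x 1) :=
          (measure_biUnion_finset hdis (fun x _ => measurableSet_ball)).symm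
      _ ≤ μ (Metric.ball (0 : E n) 3) := measure_mono hsub
      _ = ENNReal.ofReal (3 ^ n) * v := h3
  have h7 : (S.card : ENNReal) ≤ ENNReal.ofReal (3 ^ n) := by
    rwa [ENNReal.mul_le_mul_iff_left hv0 hvt] at h6
  have h8 : ENNReal.ofReal (3 ^ n) = ((3 ^ n : ℕ) : ENNReal) := by
    rw [← ENNReal.ofReal_natCast]; push_cast; rfl
  rw [h8] at h7
  exact_mod_cast h7

end Pool.Agent.helper43.TG
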