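import Pool.Agent.helper43.TG.Spec

set_option autoImplicit false

namespace Pool.Agent.helper43.TG

open scoped RealInnerProductSpace

theorem t_kup (h : WEL) : KUP := by
  intro n k p J z s β hk hpk hp hs hβ hz hzs hyp
  rcases J.eq_empty_or_nonempty with rfl | hJ
  · simp only [Finset.card_empty, Nat.cast_zero]
    positivity
  have hn : 1 ≤ n := by
    by_contra hcon
    have hn0 : n = 0 := by omega
    subst hn0
    obtain ⟨i, hi⟩ := hJ
    have h1 := hz i hi
    have h2 : z i = 0 := Subsingleton.elim _ _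
    rw [h2, norm_zero] at h1
    exact zero_ne_one h1
  set m : ℝ := (J.card : ℝ) with hm
  have hm0 : 0 < m := by
    rw [hm]; exact_mod_cast hJ.card_pos
  set N : ℝ := ((n + p - 1).choose p : ℝ) with hN
  have hN0 : 0 < N := by
    rw [hN]
    exact_mod_cast Nat.choose_pos (by omega)
  obtain ⟨hW1, hW2⟩ := h n J z
  set Q : ℝ := ∑ i ∈ J, ∑ j ∈ J, (β + ⟪z i, z j⟫) ^ k with hQ
  have hexp : Q = ∑ l ∈ Finset.range (k + 1), ((k.choose l : ℝ) * β ^ (k - l)) *
      ∑ i ∈ J, ∑ j ∈ J, ⟪z i, z j⟫ ^ l := by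
    rw [hQ]
    have h1 : ∀ i j, (β + ⟪z i, z j⟫) ^ k = ∑ l ∈ Finset.range (k + 1),
        ((k.choose l : ℝ) * β ^ (k - l)) * ⟪z i, z j⟫ ^ l := by
      intro i j
      rw [add_comm, add_pow]
      exact Finset.sum_congr rfl fun l _ => by ring
    simp only [h1]
    rw [Finset.sum_congr rfl (fun i _ => Finset.sum_comm), Finset.sum_comm]
    refine Finset.sum_congr rfl fun l _ => ?_
    rw [Finset.mul_sum]
    refine Finset.sum_congr rfl fun i _ => ?_
    rw [Finset.mul_sum]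
  have hlow : ((k.choose (2 * p) : ℝ) * β ^ (k - 2 * p)) * m ^ 2 ≤ N * Q := by
    have h1 : ((k.choose (2 * p) : ℝ) * β ^ (k - 2 * p)) *
        ∑ i ∈ J, ∑ j ∈ J, ⟪z i, z j⟫ ^ (2 * p) ≤ Q := by
      rw [hexp]
      refine Finset.single_le_sum (f := fun l => ((k.choose l : ℝ) * β ^ (k - l)) *
        ∑ i ∈ J, ∑ j ∈ J, ⟪z i, z j⟫ ^ l) ?_ ?_
      · intro l _
        exact mul_nonneg (by positivity) (hW1 l)
      · exact Finset.mem_range.2 (by omega)
    have h2 := hW2 p hz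
    calc ((k.choose (2 * p) : ℝ) * β ^ (k - 2 * p)) * m ^ 2
        ≤ ((k.choose (2 * p) : ℝ) * β ^ (k - 2 * p)) *
          (N * ∑ i ∈ J, ∑ j ∈ J, ⟪z i, z j⟫ ^ (2 * p)) :=
          mul_le_mul_of_nonneg_left h2 (by positivity)
      _ = N * (((k.choose (2 * p) : ℝ) * β ^ (k - 2 * p)) *
        ∑ i ∈ J, ∑ j ∈ J, ⟪z i, z j⟫ ^ (2 * p)) := by ring
      _ ≤ N * Q := mul_le_mul_of_nonneg_left h1 hN0.le
  have hup : Q ≤ m * (1 + β) ^ k + m ^ 2 * (β + s) ^ k := by
    have h1 : Q ≤ ∑ i ∈ J, ∑ j ∈ J, ((if i = j then (1 + β) ^ k else 0) + (β + s) ^ k) := by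
      rw [hQ]
      refine Finset.sum_le_sum fun i hi => Finset.sum_le_sum fun j hj => ?_
      split_ifs with hij
      · subst hij
        rw [real_inner_self_eq_norm_sq, hz i hi, one_pow, add_comm β 1]
        have : 0 ≤ (β + s) ^ k := by positivity
        linarith
      · rw [zero_add]
        exact hk.strictMono_pow.monotone (by linarith [hzs i hi j hj hij])
    refine h1.trans (le_of_eq ?_)
    simp only [Finset.sum_add_distrib, Finset.sum_ite_eq, Finset.sum_const, nsmul_eq_mul]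
    rw [Finset.sum_congr rfl (fun i hi => if_pos hi)]
    simp only [Finset.sum_const, nsmul_eq_mul]
    rw [← hm]
    ring
  have hβk : 0 < β ^ k := by positivity
  -- rewrite in terms of β ^ k
  have e1 : β ^ (k - 2 * p) * β ^ (2 * p) = β ^ k := by
    rw [← pow_add]; congr 1; omega
  have e2 : (β + s) ^ k = β ^ k * (1 + s / β) ^ k := by
    rw [← mul_pow]; congr 1; field_simp
  have e3 : (1 + β) ^ k = β ^ k * ((1 + β) / β) ^ k := by
    rw [← mul_pow]; congr 1; field_simp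
  have h5 : β ^ (k - 2 * p) * (β ^ (2 * p) * N * ((1 + s / β) ^ k + 1)) * m ^ 2 ≤
      N * (m * (1 + β) ^ k + m ^ 2 * (β + s) ^ k) := by
    calc β ^ (k - 2 * p) * (β ^ (2 * p) * N * ((1 + s / β) ^ k + 1)) * m ^ 2
        ≤ β ^ (k - 2 * p) * (k.choose (2 * p) : ℝ) * m ^ 2 := by
          have : 0 ≤ β ^ (k - 2 * p) := by positivity
          have h6 : β ^ (k - 2 * p) * (β ^ (2 * p) * N * ((1 + s / β) ^ k + 1)) ≤
              β ^ (k - 2 * p) * (k.choose (2 * p) : ℝ) := mul_le_mul_of_nonneg_left hyp this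
          exact mul_le_mul_of_nonneg_right h6 (by positivity)
      _ = ((k.choose (2 * p) : ℝ) * β ^ (k - 2 * p)) * m ^ 2 := by ring
      _ ≤ N * Q := hlow
      _ ≤ N * (m * (1 + β) ^ k + m ^ 2 * (β + s) ^ k) := mul_le_mul_of_nonneg_left hup hN0.le
  rw [e2, e3] at h5
  have h6 : β ^ (k - 2 * p) * (β ^ (2 * p) * N * ((1 + s / β) ^ k + 1)) * m ^ 2 =
      β ^ k * N * ((1 + s / β) ^ k + 1) * m ^ 2 := by
    rw [← e1]; ring
  rw [h6] at h5
  have h7 : (β ^ k * N * m) * m ≤ (β ^ k * N * m) * ((1 + β) / β) ^ k := by nlinarith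
  exact le_of_mul_le_mul_left h7 (by positivity)

end Pool.Agent.helper43.TG
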