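import Pool.Agent.helper43.TG.Spec

set_option autoImplicit false

namespace Pool.Agent.helper43.TG

theorem PAR_choose (m : ℕ) : ∀ k : ℕ, m ≤ k → ((k : ℝ) / m) ^ m ≤ (k.choose m : ℝ) := by
  induction m with
  | zero => intro k _; simp
  | succ m ih =>
    intro k hk
    obtain ⟨q, rfl⟩ : ∃ q, k = q + 1 := ⟨k - 1, by omega⟩
    have hq : m ≤ q := by omega
    have h1 := ih q hq
    have h2 : ((q : ℝ) + 1) * (q.choose m : ℝ) = ((q + 1).choose (m + 1) : ℝ) * ((m : ℝ) + 1) := by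
      exact_mod_cast Nat.add_one_mul_choose_eq q m
    have hm : (0 : ℝ) < (m : ℝ) + 1 := by positivity
    have h3 : ((q + 1).choose (m + 1) : ℝ) = ((q : ℝ) + 1) / ((m : ℝ) + 1) * (q.choose m : ℝ) := by
      field_simp
      linarith
    rw [h3, pow_succ]
    push_cast
    have h4 : (((q : ℝ) + 1) / ((m : ℝ) + 1)) ^ m ≤ (q.choose m : ℝ) := by
      rcases Nat.eq_zero_or_pos m with rfl | hm0
      · simp
      · refine le_trans ?_ h1
        have hm' : (0 : ℝ) < m := by exact_mod_cast hm0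
        have hq' : (m : ℝ) ≤ q := by exact_mod_cast hq
        refine pow_le_pow_left₀ (by positivity) ?_ m
        rw [div_le_div_iff₀ hm hm']
        nlinarith
    have h5 : (0 : ℝ) ≤ ((q : ℝ) + 1) / ((m : ℝ) + 1) := by positivity
    calc (((q : ℝ) + 1) / ((m : ℝ) + 1)) ^ m * (((q : ℝ) + 1) / ((m : ℝ) + 1))
        ≤ (q.choose m : ℝ) * (((q : ℝ) + 1) / ((m : ℝ) + 1)) :=
          mul_le_mul_of_nonneg_right h4 h5
      _ = ((q : ℝ) + 1) / ((m : ℝ) + 1) * (q.choose m : ℝ) := by ring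

theorem PAR_choose_up (n p : ℕ) (hn : 1 ≤ n) (hp : 1 ≤ p) :
    ((n + p - 1).choose p : ℝ) ≤ (Real.exp 1 * ((n : ℝ) + p) / p) ^ p := by
  have h1 : ((n + p - 1).choose p : ℝ) ≤ ((n + p - 1 : ℕ) : ℝ) ^ p / (p.factorial : ℝ) :=
    Nat.choose_le_pow_div p (n + p - 1)
  have h2 : ((n + p - 1 : ℕ) : ℝ) ≤ (n : ℝ) + p := by
    have : n + p - 1 ≤ n + p := by omega
    exact_mod_cast this
  have hp0 : (0 : ℝ) < p := by exact_mod_cast hp
  have h3 : (p : ℝ) ^ p / (p.factorial : ℝ) ≤ Real.exp p :=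
    Real.pow_div_factorial_le_exp (p : ℝ) hp0.le p
  have hf : (0 : ℝ) < (p.factorial : ℝ) := by exact_mod_cast Nat.factorial_pos p
  have h4 : 1 / (p.factorial : ℝ) ≤ Real.exp p / (p : ℝ) ^ p := by
    rw [div_le_div_iff₀ hf (by positivity)]
    rw [div_le_iff₀ hf] at h3
    linarith
  have h5 : ((n + p - 1 : ℕ) : ℝ) ^ p ≤ ((n : ℝ) + p) ^ p :=
    pow_le_pow_left₀ (by positivity) h2 p
  have h6 : Real.exp p = Real.exp 1 ^ p := by
    rw [← Real.exp_nat_mul]; simp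
  calc ((n + p - 1).choose p : ℝ) ≤ ((n + p - 1 : ℕ) : ℝ) ^ p / (p.factorial : ℝ) := h1
    _ = ((n + p - 1 : ℕ) : ℝ) ^ p * (1 / (p.factorial : ℝ)) := by ring
    _ ≤ ((n : ℝ) + p) ^ p * (Real.exp p / (p : ℝ) ^ p) := by
        apply mul_le_mul h5 h4 (by positivity) (by positivity)
    _ = (Real.exp 1 * ((n : ℝ) + p) / p) ^ p := by
        rw [h6, div_pow, mul_pow]; ring

theorem PAR_exp (k p : ℕ) (hk : 21 ≤ k) (hp : (k : ℝ) ≤ 4 * p) :
    (5 / 4 : ℝ) ^ k + 1 ≤ Real.exp 1 ^ p := by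
  have h6 : Real.exp 1 ^ p = Real.exp p := by
    rw [← Real.exp_nat_mul]; simp
  have h7 : Real.exp (1 / 4) ^ k ≤ Real.exp p := by
    rw [← Real.exp_nat_mul]
    apply Real.exp_le_exp.2
    linarith
  have h8 : (1.28 : ℝ) ≤ Real.exp (1 / 4) := by
    have := Real.quadratic_le_exp_of_nonneg (x := 1 / 4) (by norm_num)
    norm_num at this ⊢
    linarith
  have h9 : (1.28 : ℝ) ^ k ≤ Real.exp (1 / 4) ^ k := pow_le_pow_left₀ (by norm_num) h8 k
  have h10 : (1.28 : ℝ) ^ k = (5 / 4 : ℝ) ^ k * (1.024 : ℝ) ^ k := by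
    rw [← mul_pow]; norm_num
  have hkr : (21 : ℝ) ≤ k := by exact_mod_cast hk
  have h11 : 1 + (k : ℝ) * 0.024 ≤ (1.024 : ℝ) ^ k := by
    have := one_add_mul_le_pow (a := (0.024 : ℝ)) (by norm_num) k
    norm_num at this ⊢
    linarith
  have h12 : 1 + (k : ℝ) * 0.25 ≤ (5 / 4 : ℝ) ^ k := by
    have := one_add_mul_le_pow (a := (0.25 : ℝ)) (by norm_num) k
    norm_num at this ⊢
    linarith
  rw [h6]
  refine le_trans ?_ h7
  refine le_trans ?_ h9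
  rw [h10]
  nlinarith [mul_le_mul h12 h11 (by positivity) (by positivity : (0:ℝ) ≤ (5/4:ℝ)^k)]

theorem t_par : PAR := by
  intro n t hn ht k p hk hp
  have ht' : (10 : ℝ) ≤ (t : ℝ) + 1 := by
    have : (9 : ℝ) ≤ t := by exact_mod_cast ht
    linarith
  have hn' : (26 : ℝ) ≤ n := by exact_mod_cast hn
  set s : ℝ := 1 / ((t : ℝ) + 1) with hs
  have hs0 : 0 < s := by positivity
  have hs1 : s ^ 2 ≤ 1 / 100 := by
    rw [hs, div_pow, one_pow]
    apply one_div_le_one_div_of_le (by norm_num)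
    nlinarith
  have hx : (150 * (n : ℝ)) / ((t : ℝ) + 1) ^ 2 = 150 * n * s ^ 2 := by
    rw [hs]; field_simp
  rw [hx] at hk
  have hc1 : 150 * (n : ℝ) * s ^ 2 ≤ (⌈150 * (n : ℝ) * s ^ 2⌉₊ : ℝ) := Nat.le_ceil _
  have hc2 : (⌈150 * (n : ℝ) * s ^ 2⌉₊ : ℝ) < 150 * (n : ℝ) * s ^ 2 + 1 :=
    Nat.ceil_lt_add_one (by positivity)
  set q := ⌈150 * (n : ℝ) * s ^ 2⌉₊ with hq
  have hkr : (k : ℝ) = 2 * q + 21 := by rw [hk]; push_cast; ring
  have hk1 : 300 * (n : ℝ) * s ^ 2 ≤ k := by rw [hkr]; linarith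
  have hk21 : 21 ≤ k := by omega
  have hk21r : (21 : ℝ) ≤ k := by exact_mod_cast hk21
  have hk2 : (k : ℝ) ≤ 3 * n + 23 := by
    rw [hkr]
    nlinarith
  have hp1 : 4 * p ≤ k + 3 := by omega
  have hp2 : k ≤ 4 * p := by omega
  have hp1r : 4 * (p : ℝ) ≤ k + 3 := by exact_mod_cast hp1
  have hp2r : (k : ℝ) ≤ 4 * p := by exact_mod_cast hp2
  have hp3 : 2 * p ≤ k := by omega
  have hp4 : 1 ≤ p := by omega
  have hpn : (p : ℝ) ≤ n := by linarith
  have hp0 : (0 : ℝ) < p := by exact_mod_cast hp4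
  refine ⟨⟨q + 10, by omega⟩, hp3, hp4, ?_⟩
  have hA := PAR_choose (2 * p) k hp3
  have hB := PAR_choose_up n p (by omega) hp4
  have hC := PAR_exp k p hk21 hp2r
  refine le_trans ?_ hA
  have hβ : (4 / ((t : ℝ) + 1)) = 4 * s := by rw [hs]; ring
  rw [hβ]
  have he : Real.exp 1 ^ 2 ≤ 7.39 := by
    have := Real.exp_one_lt_d9
    have h0 := Real.exp_pos 1
    nlinarith
  have hbase : (4 * s) ^ 2 * (Real.exp 1 * ((n : ℝ) + p) / p) * Real.exp 1 ≤
      ((k : ℝ) / (2 * p : ℕ)) ^ 2 := by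
    push_cast
    rw [div_pow, le_div_iff₀ (by positivity)]
    have e1 : (4 * s) ^ 2 * (Real.exp 1 * ((n : ℝ) + p) / p) * Real.exp 1 * (2 * (p : ℝ)) ^ 2 =
        64 * s ^ 2 * Real.exp 1 ^ 2 * ((n : ℝ) + p) * p := by
      field_simp
      ring
    rw [e1]
    have e2 : 64 * s ^ 2 * Real.exp 1 ^ 2 * ((n : ℝ) + p) * p ≤ 64 * s ^ 2 * 7.39 * (2 * n) * p := by
      have : (n : ℝ) + p ≤ 2 * n := by linarith
      gcongr
    have e3 : 64 * s ^ 2 * 7.39 * (2 * n) * p ≤ 945.92 * (n * s ^ 2) * ((k + 3) / 4) := by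
      have : (p : ℝ) ≤ (k + 3) / 4 := by linarith
      have h0 : 0 ≤ (n : ℝ) * s ^ 2 := by positivity
      nlinarith
    have e4 : 945.92 * (n * s ^ 2) * (((k : ℝ) + 3) / 4) ≤ (k : ℝ) ^ 2 := by
      have h0 : (n : ℝ) * s ^ 2 ≤ k / 300 := by linarith
      have h1 : 945.92 * (n * s ^ 2) * (((k : ℝ) + 3) / 4) ≤
          945.92 * (k / 300) * (((k : ℝ) + 3) / 4) := by gcongr
      refine le_trans h1 ?_
      nlinarith
    linarith
  have hN0 : (0 : ℝ) ≤ (Real.exp 1 * ((n : ℝ) + p) / p) ^ p := by positivity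
  calc (4 * s) ^ (2 * p) * ((n + p - 1).choose p : ℝ) * ((5 / 4 : ℝ) ^ k + 1)
      ≤ (4 * s) ^ (2 * p) * (Real.exp 1 * ((n : ℝ) + p) / p) ^ p * Real.exp 1 ^ p := by
        apply mul_le_mul _ hC (by positivity) (by positivity)
        exact mul_le_mul_of_nonneg_left hB (by positivity)
    _ = ((4 * s) ^ 2 * (Real.exp 1 * ((n : ℝ) + p) / p) * Real.exp 1) ^ p := by
        rw [pow_mul]; rw [← mul_pow, ← mul_pow]
    _ ≤ (((k : ℝ) / (2 * p : ℕ)) ^ 2) ^ p := pow_le_pow_left₀ (by positivity) hbase p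
    _ = ((k : ℝ) / (2 * p : ℕ)) ^ (2 * p) := by rw [pow_mul]

end Pool.Agent.helper43.TG
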