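import Pool.Agent.helper43.TG.Defs

set_option autoImplicit false

/-!
# Rows tg:* (MP_facb47_co): `χ_n ≤ 10⁵ τ_n / n`

Paper proof: /team-store/MP_facb47_upper_helper43.md.
Every row is a Prop; the docstring contains a complete proof and the list of the rows it may assume
(the exact theorem line is in the lock note). All index types are in `Type`.
-/

namespace Pool.Agent.helper43.TG

open Pool.Agent.helper70.Sachs (IsPacking touchingGraph chi)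
open scoped RealInnerProductSpace

/-! ## Part A: colouring locally sparse graphs (Rosenfeld counting)

In Part A colourings are total maps `c : V → Fin k`; `prop G k W` are the maps which are proper on
`W` (colours outside `W` are arbitrary). `free G k S c u` depends only on `c` on `S`. -/

/-- UPD (short-medium). Proof. The map `(c, g) ↦ Function.update c v g` from the pairs `c ∈ prop G k S`,
`g ∈ free G k S c v` to `prop G k (insert v S)` is onto, and every `c'` in the target has exactly `k`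
preimages, namely `(update c' v a, c' v)`, `a : Fin k` (`v ∉ S`, so properness on `S` and `free` at `v`
do not see the colour of `v`). E.g. `Finset.sum_sigma'`/`Finset.sum_product'` and a bijection
`(c', a) ↦ (update c' v a, c' v)` from `prop G k (insert v S) ×ˢ univ` with inverse
`(c, g) ↦ (update c v g, c v)` (`Finset.sum_bij'` or `sum_nbij'`). -/
def UPD : Prop := ∀ (V : Type) [Fintype V] [DecidableEq V] (G : SimpleGraph V) [DecidableRel G.Adj]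
  (k : ℕ) (S : Finset V) (v : V) (F : (V → Fin k) → ℝ), v ∉ S →
    (k : ℝ) * ∑ c ∈ prop G k (insert v S), F c =
      ∑ c ∈ prop G k S, ∑ g ∈ free G k S c v, F (Function.update c v g)

/-- FEW (short). `theorem t_few (h : UPD) : FEW`.
Proof. UPD with `F c = if (free G k S c u).card ≤ j then 1 else 0`; `free G k S (update c u g) u =
free G k S c u` because `u ∉ S`. So the right side is `∑_{c ∈ prop G k S} |free c| 1[|free c| ≤ j]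
≤ j |prop G k S|`. -/
def FEW : Prop := ∀ (V : Type) [Fintype V] [DecidableEq V] (G : SimpleGraph V) [DecidableRel G.Adj]
  (k j : ℕ) (S : Finset V) (u : V), u ∉ S →
    (k : ℝ) * (((prop G k (insert u S)).filter
      (fun c => (free G k S c u).card ≤ j)).card : ℝ) ≤ (j : ℝ) * ((prop G k S).card : ℝ)

/-- HYB (medium). `theorem t_hyb (h : UPD) : HYB`. Here `L_u(c) = free G k (S \ U) c u`; it depends only
on `c` outside `U`. Proof. If `k = 0` both sides are `0` (`V` nonempty or trivial: `prop` may be the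
single empty map when `V` is empty; then `U = ∅` and both sides are equal; in general if `U = ∅` the
two sides are equal). Replace the vertices of `U` one after the other: prove for every `A ⊆ U` (induction
on `A`, `Finset.induction_on`)
`∑_{c ∈ prop G k S} ∏_{u ∈ U} W_u(c) ≤ ∑_{c ∈ prop G k S} (∏_{u ∈ U \ A} W_u(c)) ∏_{u ∈ A} I_u(c)`,
where `W_u(c)` is the weight of `u` in the statement and `I_u(c) = 1` if `j < |L_u(c)| → c u ≠ g`, else `0`.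
Step `A → insert u A`, `u ∈ U \ A`: write `S = insert u (S.erase u)` and apply UPD (with `v = u`) to both
sums (`k > 0` here as `g : Fin k`); for a fixed `c ∈ prop G k (S.erase u)` only the factor of `u` depends
on the new colour `a ∈ free G k (S.erase u) c u` of `u` (all `L_{u'}`, `u' ∈ U`, ignore the colours in
`U`, in particular the colour of `u`; `I_{u'}` for `u' ∈ A` only sees `c u'` and `L_{u'}`), the other
factors are `≥ 0` (`1 - 1/(|L|-h) ≥ 0` when `|L| > j ≥ h+1`, and the indicator). So it is enough that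
`∑_{a ∈ free} W_u ≤ ∑_{a ∈ free} 1[j < |L_u| → a ≠ g]`, i.e. for `j < |L_u|`, `g ∈ L_u`:
`N (1 - 1/(|L_u|-h)) ≤ N - 1[g ∈ free]`, where `N = |free G k (S.erase u) c u| ≥ |L_u| - h` because
`free ⊇ L_u \ {c y : y ∈ U, u ~ y}` and `u` has at most `h` neighbours in `U`; for `j < |L_u|`,
`g ∉ L_u`: `g ∉ free` (as `free ⊆ L_u`: `S \ U ⊆ S.erase u`), so both sides are `N`; for `|L_u| ≤ j`
both sides are `N`. -/
def HYB : Prop := ∀ (V : Type) [Fintype V] [DecidableEq V] (G : SimpleGraph V) [DecidableRel G.Adj]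
  (k h j : ℕ) (S U : Finset V) (g : Fin k), U ⊆ S → h + 1 ≤ j →
    (∀ u ∈ U, (U.filter (fun y => G.Adj u y)).card ≤ h) →
    ∑ c ∈ prop G k S, ∏ u ∈ U, (if j < (free G k (S \ U) c u).card ∧ g ∈ free G k (S \ U) c u
        then (1 - 1 / (((free G k (S \ U) c u).card : ℝ) - h)) else 1) ≤
      (((prop G k S).filter (fun c => ∀ u ∈ U, j < (free G k (S \ U) c u).card → c u ≠ g)).card : ℝ)

/-- JEN (short-medium). Proof. `1 - 1/a ≥ exp(-1/(a-1))` for `a > 1` (`Real.add_one_le_exp` gives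
`a/(a-1) = 1 + 1/(a-1) ≤ exp(1/(a-1))`). With `x_g = ∑_{u ∈ D, g ∈ L u} 1/(|L u| - h - 1)` the product is
`≥ exp(-x_g)`, Jensen (`convexOn_exp`, `inner_le_nnorm_mul_nnorm` not needed; e.g.
`ConvexOn.map_sum_le` with weights `1/k`, or `Real.inner_le...`, or AM-GM) gives
`∑_g exp(-x_g) ≥ k exp(-(1/k) ∑_g x_g)`, and `∑_g x_g = ∑_{u ∈ D} |L u|/(|L u|-h-1) ≤ 2 |D|` since
`|L u| ≥ 2(h+1)`. (`k ≥ 1`.) -/
def JEN : Prop := ∀ (V : Type) (k h : ℕ) (D : Finset V) (L : V → Finset (Fin k)), 1 ≤ k →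
  (∀ u ∈ D, 2 * (h + 1) ≤ (L u).card) →
    (k : ℝ) * Real.exp (-(2 * (D.card : ℝ)) / k) ≤
      ∑ g : Fin k, ∏ u ∈ D, (if g ∈ L u then (1 - 1 / (((L u).card : ℝ) - h)) else 1)

/-- STP (medium). `theorem t_stp (hu : UPD) (hf : FEW) (hh : HYB) (hj : JEN) : STP`.
Proof. `j = 3h+2`, `L_u(c) = free G k (S \ U) c u`, `D(c) = U.filter (j < |L_u(c)|)`, `P = |prop G k S|`.
UPD with `F = 1`: `k |prop G k (insert v S)| = ∑_{c ∈ prop G k S} |free G k S c v|`. For every `c`: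
`|free G k S c v| ≥ #{g : ∀ u ∈ U, j < |L_u(c)| → c u ≠ g} - #{u ∈ U : |L_u(c)| ≤ j} - |B|`, since a colour
that is not free at `v` is the colour of a neighbour of `v` in `S`, i.e. of a vertex of `B`, of a vertex
`u ∈ U` with `|L_u| ≤ j`, or of a vertex of `D(c)`.
Summing over `c`: (a) `∑_c #{g : ...} = ∑_g #{c ∈ prop G k S: ∀ u ∈ U, j < |L_u(c)| → c u ≠ g}`
`≥ ∑_g ∑_c ∏_u W ≥ ∑_c k exp(-2|D(c)|/k) ≥ P k exp(-2Δ/k)` by HYB and JEN (for fixed `c` the product over `U`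
is the product over `D(c)`, and `u ∈ D(c)` has `|L_u| ≥ 3h+3 ≥ 2(h+1)`), `|D(c)| ≤ |U| ≤ Δ`.
(b) `∑_c #{u ∈ U : |L_u(c)| ≤ j} = ∑_{u ∈ U} #{c : |L_u(c)| ≤ j} ≤ ∑_{u ∈ U} #{c : |free G k (S.erase u) c u| ≤ j}`
(`free (S.erase u) ⊆ L_u`), and by FEW (for `S.erase u`, `u`) and the hypothesis
`k #{...} ≤ j |prop G k (S.erase u)| ≤ j (k/l) P`, so each term is `≤ (j/l) P` and the sum is `≤ Δ (j/l) P`.
If `k = 0`: the hypothesis `1 ≤ k` excludes it. -/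
def STP : Prop := ∀ (V : Type) [Fintype V] [DecidableEq V] (G : SimpleGraph V) [DecidableRel G.Adj]
  (k h : ℕ) (S U B : Finset V) (v : V) (Δ l : ℝ), 1 ≤ k → 0 < l → v ∉ S → U ⊆ S →
    (∀ y ∈ S, G.Adj v y → y ∈ U ∨ y ∈ B) → (U.card : ℝ) ≤ Δ →
    (∀ u ∈ U, (U.filter (fun y => G.Adj u y)).card ≤ h) →
    (∀ u ∈ U, l * ((prop G k (S.erase u)).card : ℝ) ≤ (k : ℝ) * ((prop G k S).card : ℝ)) →
    ((prop G k S).card : ℝ) * ((k : ℝ) * Real.exp (-(2 * Δ) / k) - (B.card : ℝ) - Δ * (3 * h + 2) / l) ≤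
      (k : ℝ) * ((prop G k (insert v S)).card : ℝ)

/-- COL (short-medium). `theorem t_col (h : STP) : COL`.
Proof. Claim, by strong induction on `|W|`: for every `W` and `v ∈ W`,
`l |prop G k (W.erase v)| ≤ k |prop G k W|`. Put `S = W.erase v`, `Bv = {u : v ~ u, h < |N(u) ∩ N(v)|}`,
`U = {u ∈ S : v ~ u, u ∉ Bv}`, `B = {u ∈ S : v ~ u, u ∈ Bv}` and apply STP: `|U| ≤ |N(v)| ≤ Δ`,
`|B| ≤ b`, `u ∈ U` has at most `h` neighbours in `U ⊆ N(v)`, and the hypothesis on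
`prop G k (S.erase u)` is the induction hypothesis for `S`, `u` (`|S| < |W|`). Hence
`k |prop G k W| ≥ |prop G k S| (k exp(-2Δ/k) - b - Δ(3h+2)/l) ≥ l |prop G k S|`.
By induction `prop G k W` is nonempty for every `W` (`prop G k ∅` is everything, nonempty as `k ≥ 1`), so
`prop G k univ` contains a proper colouring. -/
def COL : Prop := ∀ (V : Type) [Fintype V] [DecidableEq V] (G : SimpleGraph V) [DecidableRel G.Adj]
  (k h : ℕ) (Δ l b : ℝ), 1 ≤ k → 0 < l →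
    (∀ v, ((Finset.univ.filter (fun u => G.Adj v u)).card : ℝ) ≤ Δ) →
    (∀ v, ((Finset.univ.filter (fun u => G.Adj v u ∧
      h < (Finset.univ.filter (fun y => G.Adj v y ∧ G.Adj u y)).card)).card : ℝ) ≤ b) →
    l ≤ (k : ℝ) * Real.exp (-(2 * Δ) / k) - b - Δ * (3 * h + 2) / l → G.Colorable k

/-- NUM (short-medium). Proof. `√f ≤ Δ`, so `h = ⌈Δ/√f⌉₊ ≤ Δ/√f + 1 ≤ 2Δ/√f` and `3h+2 ≤ 5h ≤ 10 Δ/√f` (`h ≥ 1`).
With `l = Δ f^(-1/4)` (so `l > 0`): `Δ(3h+2)/l ≤ 10 Δ f^(-1/4)`, `2Δ/√f ≤ 2 Δ f^(-1/4)`. With `L = log f > 0` and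
`k ≥ 40Δ/L`: `k exp(-2Δ/k) ≥ (40Δ/L) exp(-L/20)`. And `40 exp(L/5) ≥ 40 e L/5 ≥ 13 L`, i.e.
`(40/L) exp(-L/20) ≥ 13 exp(-L/4)`. `k ≥ 1` since `40Δ/L > 0`. -/
def NUM : Prop := ∀ (Δ f : ℝ) (k : ℕ), 1 < f → f ≤ Δ ^ 2 → 0 < Δ → 40 * Δ / Real.log f ≤ k →
  1 ≤ k ∧ 0 < Δ * f ^ (-(1 / 4) : ℝ) ∧ 0 < (⌈Δ / Real.sqrt f⌉₊ : ℝ) ∧
    Δ * f ^ (-(1 / 4) : ℝ) ≤ (k : ℝ) * Real.exp (-(2 * Δ) / k) - 2 * Δ / Real.sqrt f -
      Δ * (3 * (⌈Δ / Real.sqrt f⌉₊ : ℝ) + 2) / (Δ * f ^ (-(1 / 4) : ℝ))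

/-- AKS (short). `theorem t_aks (hc : COL) (hn : NUM) : AKS`.
Proof. COL with `h = ⌈Δ/√f⌉₊`, `l = Δ f^(-1/4)`, `b = 2Δ/√f` (NUM): the set `B_v` satisfies
`h |B_v| ≤ ∑_{u ∈ N(v)} |N(u) ∩ N(v)| ≤ 2Δ²/f`, so `|B_v| ≤ 2Δ²/(f h) ≤ 2Δ/√f` as `h ≥ Δ/√f`. -/
def AKS : Prop := ∀ (V : Type) [Fintype V] [DecidableEq V] (G : SimpleGraph V) [DecidableRel G.Adj]
  (k : ℕ) (Δ f : ℝ), 1 < f → f ≤ Δ ^ 2 → 0 < Δ →
    (∀ v, ((Finset.univ.filter (fun u => G.Adj v u)).card : ℝ) ≤ Δ) →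
    (∀ v, ∑ u ∈ Finset.univ.filter (fun u => G.Adj v u),
      ((Finset.univ.filter (fun y => G.Adj v y ∧ G.Adj u y)).card : ℝ) ≤ 2 * Δ ^ 2 / f) →
    40 * Δ / Real.log f ≤ k → G.Colorable k

/-- GRD (short). Greedy colouring. Proof. With `prop`, `free`: by induction on `W` the set
`prop G (d+1) W` is nonempty: `prop ∅` is everything; if `c ∈ prop W`, `v ∉ W`, then at most `d` colours occur
at neighbours of `v`, so some colour `g` is free and `update c v g ∈ prop (insert v W)`. (Or use a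
Mathlib lemma on greedy colourings if there is one.) -/
def GRD : Prop := ∀ (V : Type) [Fintype V] [DecidableEq V] (G : SimpleGraph V) [DecidableRel G.Adj]
  (d : ℕ), (∀ v, (Finset.univ.filter (fun u => G.Adj v u)).card ≤ d) → G.Colorable (d + 1)

/-! ## Part B: local sparsity -/

/-- CNT (medium). Proof. `T = |Y|`, `d(y) = #{x ∈ Y : R x y}`, `E = ∑_{y ∈ Y} d(y)`.
Power mean (`inner_le_nnorm_mul_nnorm` not needed; use `inner...`/`Finset.inner`... : the lemma is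
`inv_pow..`, e.g. `Finset.pow_sum_le_card_mul_sum_pow` or `inner_mul_le_norm_mul_norm`; any form of
`(∑ d)^t ≤ T^(t-1) ∑ d^t`, Mathlib: `inner_le...` or `Real.pow_sum_div_card_le_sum_pow`):
`E^t ≤ T^(t-1) ∑_y d(y)^t`. Double counting: `∑_{y ∈ Y} d(y)^t = ∑_{X : Fin t → Y} #{y ∈ Y : ∀ i, R (X i) y}`
(`d(y)^t = |Fintype.piFinset (fun _ : Fin t => Y.filter (R · y))|`). Injective `X`: at most `T^t` of them, each
contributes `≤ K`. Non-injective `X`: at most `t² T^(t-1)` of them (choose `i ≠ j` with `X i = X j`; for fixed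
`i ≠ j` the maps with `X i = X j` are determined by the values at the other `t-1` arguments), each contributes `≤ T`.
So `∑_y d(y)^t ≤ T^t K + t² T^(t-1) T = T^t (K + t²)` and `E^t ≤ T^(2t-1) (K + t²)`. -/
def CNT : Prop := ∀ (α : Type) [DecidableEq α] (Y : Finset α) (R : α → α → Prop) [DecidableRel R]
  (t : ℕ) (K : ℝ), 1 ≤ t → 0 ≤ K →
    (∀ X : Fin t → α, Function.Injective X → (∀ i, X i ∈ Y) →
      ((Y.filter (fun y => ∀ i, R (X i) y)).card : ℝ) ≤ K) →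
    (∑ y ∈ Y, ((Y.filter (fun x => R x y)).card : ℝ)) ^ t ≤
      (Y.card : ℝ) ^ (2 * t - 1) * (K + (t : ℝ) ^ 2)

/-- CEN (medium). Proof. `c = (1/t) ∑ x_i`. For `y ∈ Y`: `|y - c|² = (1/t) ∑_i |y - x_i|² - (1/t²) ∑_{i<j} |x_i - x_j|²`
`= 4 - V`, `V = (1/(2t²)) ∑_{i,j} |x_i - x_j|² ≥ (1/(2t²)) t(t-1) 4 = 2(t-1)/t`. (To prove the identity put
`a_i = y - x_i`, `y - c = (1/t) ∑ a_i`, `|∑ a_i|² = ∑_{i,j} ⟨a_i,a_j⟩`, `2⟨a_i,a_j⟩ = |a_i|² + |a_j|² - |a_i - a_j|²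
= 8 - |x_i - x_j|²`, so `|y-c|² = (1/t²) ∑_{i,j} (4 - |x_i-x_j|²/2)`; this number `r²` is the same for all `y`,
and `r² ≤ 4 - 2(t-1)/t = 2(t+1)/t`.) For `y ≠ y'` in `Y`: `⟨y-c, y'-c⟩ = r² - |y-y'|²/2 ≤ r² - 2`. Since `Y` has two
different points, `r > 0` (else both are `c`). Put `z y = (y - c)/r`: norm `1` on `Y` and
`⟨z y, z y'⟩ ≤ 1 - 2/r² ≤ 1 - t/(t+1) = 1/(t+1)`. -/
def CEN : Prop := ∀ (n t : ℕ) (x : Fin t → E n) (Y : Finset (E n)), 1 ≤ t → 2 ≤ Y.card →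
  (∀ i j, i ≠ j → 2 ≤ dist (x i) (x j)) → (∀ y ∈ Y, ∀ i, dist (x i) y = 2) →
  (∀ y ∈ Y, ∀ y' ∈ Y, y ≠ y' → 2 ≤ dist y y') →
    ∃ z : E n → E n, (∀ y ∈ Y, ‖z y‖ = 1) ∧
      ∀ y ∈ Y, ∀ y' ∈ Y, y ≠ y' → ⟪z y, z y'⟫ ≤ 1 / ((t : ℝ) + 1)

/-- TEN (short-medium). Proof. `⟪x,y⟫ = ∑ i, x i * y i` (`EuclideanSpace.inner_eq_star_dotProduct` or `PiLp.inner_apply`)
and the multinomial theorem `Finset.sum_pow` (or `Finset.sum_pow_of_commute`):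
`(∑ i, x i y i)^p = ∑_{α ∈ univ.sym p} multinomial(α) ∏ (x i y i)^{α_i}`; take
`T x α = √(multinomial α) ∏ (x i)^{α_i}` (product over the multiset `α`). `Fintype.card (Sym (Fin n) p) =
(n + p - 1).choose p` is `Sym.card_sym_eq_choose`. Any index type `ι` with that many elements is fine. -/
def TEN : Prop := ∀ n p : ℕ, ∃ (ι : Type) (_ : Fintype ι) (T : E n → ι → ℝ),
  Fintype.card ι = (n + p - 1).choose p ∧ ∀ x y : E n, ⟪x, y⟫ ^ p = ∑ a, T x a * T y a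

/-- WEL (short-medium). `theorem t_wel (h : TEN) : WEL`. Proof. First part: TEN with exponent `l`:
`∑_{i,j} ⟪z i,z j⟫^l = ∑_a (∑_i T (z i) a)² ≥ 0`. Second part: TEN with exponent `p`:
`∑_{i,j} ⟪z i, z j⟫^{2p} = ∑_{i,j} (∑_a T_i(a) T_j(a))² = ∑_{a,b} (∑_i T_i(a) T_i(b))² ≥ ∑_a (∑_i T_i(a)²)²
≥ (∑_a ∑_i T_i(a)²)²/|ι| = m²/C(n+p-1,p)`, as `∑_a T_i(a)² = ⟪z i, z i⟫^p = 1` (Cauchy-Schwarz,
`sq_sum_le_card_mul_sum_sq`). -/
def WEL : Prop := ∀ (n : ℕ) (J : Finset (E n)) (z : E n → E n),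
  (∀ l : ℕ, 0 ≤ ∑ i ∈ J, ∑ j ∈ J, ⟪z i, z j⟫ ^ l) ∧
  (∀ p : ℕ, (∀ i ∈ J, ‖z i‖ = 1) →
    (J.card : ℝ) ^ 2 ≤ ((n + p - 1).choose p : ℝ) * ∑ i ∈ J, ∑ j ∈ J, ⟪z i, z j⟫ ^ (2 * p))

/-- KUP (short-medium). `theorem t_kup (h : WEL) : KUP`. Proof. `m = |J|`, `N = C(n+p-1,p)`.
`Σ := ∑_{i,j} (β + ⟪z i,z j⟫)^k = ∑_l C(k,l) β^{k-l} ∑_{i,j} ⟪z i,z j⟫^l` (`add_pow`), all terms `≥ 0` by WEL, so
`N Σ ≥ C(k,2p) β^{k-2p} m²`. The diagonal terms are `(1+β)^k`; for `i ≠ j`: `(β + ⟪⟫)^k ≤ (β+s)^k` (odd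
powers are monotone, `Odd.strictMono_pow`), so `Σ ≤ m(1+β)^k + m²(β+s)^k` (`(β+s)^k ≥ 0`). Hence
`m² [C(k,2p) β^{-2p} - N (1+s/β)^k] ≤ m N ((1+β)/β)^k`; the hypothesis says the bracket is `≥ N`, so
`m² N ≤ m N ((1+β)/β)^k` (`N > 0`: if `N = 0` then `n = 0`, `p ≥ 1`, but then `J = ∅`, as unit vectors do not exist in
`E 0`; or treat `m = 0` first). -/
def KUP : Prop := ∀ (n k p : ℕ) (J : Finset (E n)) (z : E n → E n) (s β : ℝ), Odd k → 2 * p ≤ k →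
  1 ≤ p → 0 ≤ s → 0 < β → (∀ i ∈ J, ‖z i‖ = 1) → (∀ i ∈ J, ∀ j ∈ J, i ≠ j → ⟪z i, z j⟫ ≤ s) →
  β ^ (2 * p) * ((n + p - 1).choose p : ℝ) * ((1 + s / β) ^ k + 1) ≤ (k.choose (2 * p) : ℝ) →
    (J.card : ℝ) ≤ ((1 + β) / β) ^ k

/-- PAR (medium). Numbers. `s = 1/(t+1)`, `β = 4s`, `k = 2⌈150 n/(t+1)²⌉₊ + 21`, `p = (k+3)/4` (natural division).
Proof. `k ≥ 21` is odd, `k/4 ≤ p ≤ (k+3)/4`, `2p ≤ k`, `p ≥ 1`. `k ≤ 300 n s² + 23 ≤ 3n + 23`, so `p ≤ n` (`n ≥ 26`).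
(a) `C(k,2p) ≥ (k/(2p))^{2p}` (product `(k-i)/(2p-i) ≥ k/(2p)`). (b) `C(n+p-1,p) ≤ (n+p)^p/p! ≤ (e(n+p)/p)^p`
(`Nat.choose_le_pow_div`, `Real.pow_div_factorial_le_exp`: `p^p/p! ≤ e^p`). So it is enough that
`(e^p) · β^{2p} (e(n+p)/p)^p ≤ (k/2p)^{2p}` and `(5/4)^k + 1 ≤ e^p`. The first: `e² β² (n+p)/p ≤ k²/(4p²)`, i.e.
`4 e² β² p (n+p) ≤ k²`; as `n + p ≤ 2n` enough `8 e² 16 s² n p ≤ k²`; `128 e² ≤ 946` (`e² < 7.3891`), and
`946 s² n (k+3)/4 ≤ 236.5 (1 + 1/7) s² n k ≤ 300 s² n k ≤ k²` as `k ≥ 300 n s²`, `k ≥ 21`. The second: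
`e^p ≥ e^{k/4}`, `log(5/4) ≤ 0.2232`, `e^{k/4} = (5/4)^k e^{k(1/4 - log(5/4))} ≥ (5/4)^k (1 + 0.0268 k) ≥
(5/4)^k + 1` for `k ≥ 21` (`0.0268·21·(5/4)^{21} ≥ 1`). E.g. `e^{1/4} ≥ 1.284 > 1.25·1.027`. -/
def PAR : Prop := ∀ n t : ℕ, 26 ≤ n → 9 ≤ t → ∀ k p : ℕ,
  k = 2 * ⌈(150 * (n : ℝ)) / ((t : ℝ) + 1) ^ 2⌉₊ + 21 → p = (k + 3) / 4 →
    Odd k ∧ 2 * p ≤ k ∧ 1 ≤ p ∧
    (4 / ((t : ℝ) + 1)) ^ (2 * p) * ((n + p - 1).choose p : ℝ) * ((5 / 4 : ℝ) ^ k + 1) ≤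
      (k.choose (2 * p) : ℝ)

/-- KTB (short). `theorem t_ktb (hc : CEN) (hk : KUP) (hp : PAR) : KTB`.
Proof. If `|Y| ≤ 1` trivial (the right side is `≥ 1`). Otherwise CEN, then KUP with `s = 1/(t+1)`, `β = 4/(t+1)`
(`1 + s/β = 5/4`): `|Y| ≤ ((1+β)/β)^k = ((t+5)/4)^k ≤ (t+1)^k` and `k ≤ 300 n/(t+1)² + 23`. -/
def KTB : Prop := ∀ (n t : ℕ) (x : Fin t → E n) (Y : Finset (E n)), 26 ≤ n → 9 ≤ t →
  (∀ i j, i ≠ j → 2 ≤ dist (x i) (x j)) → (∀ y ∈ Y, ∀ i, dist (x i) y = 2) →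
  (∀ y ∈ Y, ∀ y' ∈ Y, y ≠ y' → 2 ≤ dist y y') →
    (Y.card : ℝ) ≤ ((t : ℝ) + 1) ^ (300 * (n : ℝ) / ((t : ℝ) + 1) ^ 2 + 23)

/-- SPA (medium). `theorem t_spa (hc : CNT) (hk : KTB) : SPA`. `Y` is the set of neighbours of a vertex.
Proof. `K = (t+1)^(300n/(t+1)²+23)`, CNT with `R x y = (dist x y = 2)` (for injective `X` the points `X i` are at mutual
distances `≥ 2`, KTB bounds the common neighbours): `E^t ≤ T^(2t-1) (K + t²)`, `T = |Y| ≤ Δ`.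
`K + t² ≤ 2K ≤ (t+1) K = exp((300n/(t+1)²+24) log(t+1)) ≤ exp(log Δ/2) = Δ^(1/2)`. So `E^t ≤ Δ^(2t-1/2)` and
`E ≤ Δ^(2 - 1/(2t))`. (`1 ≤ Δ` because `log Δ > 0` and `Δ > 0`.) -/
def SPA : Prop := ∀ (n t : ℕ) (Δ : ℝ) (Y : Finset (E n)), 26 ≤ n → 9 ≤ t → 0 < Δ →
  (600 * (n : ℝ) / ((t : ℝ) + 1) ^ 2 + 48) * Real.log ((t : ℝ) + 1) ≤ Real.log Δ →
  (∀ y ∈ Y, ∀ y' ∈ Y, y ≠ y' → 2 ≤ dist y y') → (Y.card : ℝ) ≤ Δ →
    ∑ y ∈ Y, ((Y.filter (fun x => dist x y = 2)).card : ℝ) ≤ Δ ^ (2 - 1 / (2 * (t : ℝ)))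

/-! ## Part C: kissing number, compactness, assembly -/

/-- KBD (medium). Proof. The open balls of radius `1` around the points of `S` are disjoint and contained in the
ball of radius `3` around `0`; compare volumes (`EuclideanSpace`, `MeasureTheory.volume`,
`MeasureTheory.Measure.addHaar_ball`, `measure_biUnion_finset`): `|S| v ≤ 3^n v`, `0 < v < ∞`. -/
def KBD : Prop := ∀ (n : ℕ) (S : Finset (E n)), IsKissing S → S.card ≤ 3 ^ n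

/-- KGR (short). `theorem t_kgr (h : KBD) : KGR`. `Nat.sSup_mem` with `BddAbove` (KBD) and nonempty (`S = ∅`). -/
def KGR : Prop := ∀ n : ℕ,
  IsGreatest {m : ℕ | ∃ S : Finset (E n), IsKissing S ∧ S.card = m} (tau n)

/-- KLB (medium). `theorem t_klb (h : KGR) : KLB`. Proof. Let `S` be a kissing configuration with `|S| = tau n`; it is
maximal, so every `u` with `‖u‖ = 2` has `x ∈ S` with `dist u x < 2` (else `insert u S` is a larger one; if `u ∈ S`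
take `x = u`). Then `⟪u, x⟫ > 2` (`|u-x|² = 8 - 2⟪u,x⟫ < 4`). Let `y ≠ 0`, `‖y‖ ≤ 1`, `u = (2/‖y‖) y`: `⟪y,x⟫ > ‖y‖`, so
`‖y - x/4‖² = ‖y‖² - ⟪y,x⟫/2 + 1/4 < ‖y‖² - ‖y‖/2 + 1/4 ≤ 3/4`. So `ball 0 1 \ {0} ⊆ ⋃_{x ∈ S} ball (x/4) (√3/2)` (`0` is
covered too if `S ≠ ∅`, and `{0}` has measure `0` as `n ≥ 1`). Volumes (`addHaar_ball`): `v ≤ |S| (√3/2)^n v`. -/
def KLB : Prop := ∀ n : ℕ, 1 ≤ n → (2 / Real.sqrt 3) ^ n ≤ (tau n : ℝ)

/-- DEG (short). `theorem t_deg (h : KGR) : DEG`. Translate by `-x`: `N.image (· - x)` is a kissing configuration of the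
same cardinality. -/
def DEG : Prop := ∀ (n : ℕ) (N : Finset (E n)) (x : E n), (∀ y ∈ N, dist y x = 2) →
  (∀ y ∈ N, ∀ y' ∈ N, y ≠ y' → 2 ≤ dist y y') → N.card ≤ tau n

/-- CPT (medium). Compactness. Proof. `SimpleGraph.nonempty_hom_of_forall_finite_subgraph_hom` (target
`⊤ : SimpleGraph (Fin k)`, which is what `Colorable k` means): a finite subgraph `G'` of `touchingGraph M` has a finite
vertex set `A ⊆ M`; the image `F` of `A` in `E n` is a finite packing, `touchingGraph F` is `k`-colourable by hypothesis, and this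
colouring restricts to `G'` (adjacent in `G'` implies adjacent in `touchingGraph M`, i.e. at distance `2`). -/
def CPT : Prop := ∀ (n k : ℕ) (M : Set (E n)),
  (∀ F : Finset (E n), (F : Set (E n)) ⊆ M → (touchingGraph (F : Set (E n))).Colorable k) →
    (touchingGraph M).Colorable k

/-- TH1 (medium). `theorem t_th1 (ha : AKS) (hs : SPA) (hc : CPT) : TH1`.
Proof. By CPT it is enough to colour `touchingGraph F` for finite `F ⊆ M`. AKS for the vertex type `F` (a `Fintype`), with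
`f = Δ^(1/(2t))`: `1 < f` (`log Δ > 0`), `f ≤ Δ²` (`Δ ≥ 1`), degrees: the neighbours of `v` in `F` form (map to `E n`) a finite set `N ⊆ M`
of points at distance `2` from `v`, so `≤ Δ` by hypothesis; `∑_{u ∈ N(v)} |N(u) ∩ N(v)|` is the sum in SPA for `Y = N`, hence
`≤ Δ^(2-1/(2t)) = Δ²/f ≤ 2Δ²/f`. `log f = log Δ/(2t)`, so `40Δ/log f = 80 t Δ/log Δ ≤ k`. -/
def TH1 : Prop := ∀ (n t k : ℕ) (Δ : ℝ) (M : Set (E n)), 26 ≤ n → 9 ≤ t → 0 < Δ →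
  (600 * (n : ℝ) / ((t : ℝ) + 1) ^ 2 + 48) * Real.log ((t : ℝ) + 1) ≤ Real.log Δ → IsPacking M →
  (∀ x ∈ M, ∀ N : Finset (E n), (∀ y ∈ N, y ∈ M ∧ dist y x = 2) → (N.card : ℝ) ≤ Δ) →
  80 * (t : ℝ) * Δ / Real.log Δ ≤ k → (touchingGraph M).Colorable k

/-- TRV (short-medium). `theorem t_trv (hg : GRD) (hc : CPT) : TRV`. GRD for the finite sub-packings, CPT. -/
def TRV : Prop := ∀ (n d : ℕ) (M : Set (E n)), IsPacking M →
  (∀ x ∈ M, ∀ N : Finset (E n), (∀ y ∈ N, y ∈ M ∧ dist y x = 2) → N.card ≤ d) →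
    (touchingGraph M).Colorable (d + 1)

/-- TAL (short). Lower bound for small `n`. Proof. `n ≤ tau n` for all `n`: the vectors `2 e_i` (`EuclideanSpace.single i 2`)
form a kissing configuration (distances `2√2`). -/
def TAL : Prop := ∀ n : ℕ, n ≤ tau n

/-- TH2 (medium). `theorem t_th2 (h1 : TH1) (ht : TRV) (hl : KLB) (hd : DEG) (ha : TAL) : TH2`.
Proof. `chi n` is the supremum of the `chromaticNumber`s, `Colorable k → chromaticNumber ≤ k`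
(`SimpleGraph.Colorable.chromaticNumber_le`), so it is enough that `touchingGraph M` is `k`-colourable for
`k = ⌊10^5 tau n/n⌋₊` and every packing `M`. `n < 10^4`: TRV with `d = tau n` (DEG), and
`tau n + 1 ≤ ⌊10^5 tau n/n⌋₊` since `tau n ≥ n ≥ 1` (TAL) and `10^5/n ≥ 10`; `Colorable.mono`.
`n ≥ 10^4`: TH1 with `t = 160`, `Δ = tau n` (DEG): `log Δ ≥ n log(2/√3) ≥ 0.1438 n` (`log(2/√3) = (1/2) log(4/3) ≥ 0.1438`; note
`log(4/3) ≥ 0.2876`), `(600 n/161² + 48) log 161 ≤ 0.1438 n` for `n ≥ 10^4`: `log 161 ≤ 5.0815`,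
`600/25921·5.0815 ≤ 0.11763`, `48·5.0815 ≤ 244 ≤ 0.0261 n`. And `80·160·Δ/log Δ ≤ 12800 Δ/(0.1438 n) ≤ 89013 Δ/n`, and
`89013 Δ/n ≤ ⌊10^5 Δ/n⌋₊` since `10^5 Δ/n - 1 ≥ 89013 Δ/n` (`Δ ≥ n`). -/
def TH2 : Prop := ∀ n : ℕ, 1 ≤ n →
  chi n ≤ ((⌊(10 : ℝ) ^ 5 * (tau n : ℝ) / (n : ℝ)⌋₊ : ℕ) : ℕ∞)

/-- TH3 (medium). `theorem t_th3 (h1 : TH1) (ht : TRV) : TH3`. Proof. Choose `t ≥ 9` with
`600 log(t+1)/(t+1)² ≤ ε/2` (`log x / x² → 0`, e.g. `log x ≤ x`, so `600/(t+1) ≤ ε/2` suffices) and `n₀ ≥ 26` with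
`48 log(t+1) ≤ (ε/2) n₀`; `C = 80 t/ε + 1/ε + 2 n₀`. For `n ≥ n₀`: `log Δ ≥ ε n ≥ (600n/(t+1)²+48) log(t+1)`, TH1 with
`k = ⌊C Δ/n⌋₊`: `80tΔ/log Δ ≤ (80t/ε) Δ/n ≤ CΔ/n - 1 ≤ k` since `(1/ε)Δ/n ≥ 1` (`Δ ≥ exp(ε n) ≥ ε n`). For `n < n₀`: TRV with
`d = ⌊Δ⌋₊`, and `⌊Δ⌋₊ + 1 ≤ 2Δ ≤ CΔ/n` (`Δ ≥ 1`, `n ≤ n₀`), `Nat.le_floor`, `Colorable.mono`. -/
def TH3 : Prop := ∀ ε : ℝ, 0 < ε → ∃ C : ℝ, ∀ (n : ℕ) (Δ : ℝ) (M : Set (E n)), 1 ≤ n →
  Real.exp (ε * n) ≤ Δ → IsPacking M →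
  (∀ x ∈ M, ∀ N : Finset (E n), (∀ y ∈ N, y ∈ M ∧ dist y x = 2) → (N.card : ℝ) ≤ Δ) →
    (touchingGraph M).Colorable ⌊C * Δ / n⌋₊

end Pool.Agent.helper43.TG
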