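import Pool.Agent.helper43.TG.KBD
import Pool.Agent.helper82.TG.KGR

set_option autoImplicit false

namespace Pool.Agent.helper43.TG

theorem TAL_aux (h : KGR) : TAL := by
  intro n
  refine (h n).2 ⟨Finset.univ.image (fun i : Fin n => EuclideanSpace.single i (2 : ℝ)), ⟨?_, ?_⟩, ?_⟩
  · intro x hx
    obtain ⟨i, _, rfl⟩ := Finset.mem_image.1 hx
    simp
  · intro x hx y hy hxy
    obtain ⟨i, _, rfl⟩ := Finset.mem_image.1 hx
    obtain ⟨j, _, rfl⟩ := Finset.mem_image.1 hy
    have hij : i ≠ j := fun h => hxy (by rw [h])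
    rw [EuclideanSpace.dist_eq]
    refine Real.le_sqrt_of_sq_le ?_
    calc (2 : ℝ) ^ 2 = dist ((EuclideanSpace.single i (2 : ℝ)) i) ((EuclideanSpace.single j (2 : ℝ)) i) ^ 2 := by
          simp [hij]
      _ ≤ _ := Finset.single_le_sum
          (f := fun k => dist ((EuclideanSpace.single i (2 : ℝ)) k) ((EuclideanSpace.single j (2 : ℝ)) k) ^ 2)
          (fun k _ => sq_nonneg _) (Finset.mem_univ i)
  · rw [Finset.card_image_of_injective, Finset.card_univ, Fintype.card_fin]
    intro i j hij
    by_contra hne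
    have := congrArg (fun v : EuclideanSpace ℝ (Fin n) => v i) hij
    simp [hne] at this

theorem t_tal : TAL := TAL_aux (t_kgr t_kbd)

end Pool.Agent.helper43.TG
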