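import Pool.Agent.helper43.TG.Spec

set_option autoImplicit false

namespace Pool.Agent.helper43.TG

open Pool.Agent.helper70.Sachs (IsPacking touchingGraph chi)

theorem t_th3 (h1 : TH1) (ht : TRV) : TH3 := by
  intro ε hε
  obtain ⟨t, ht9⟩ : ∃ t : ℕ, max 9 (1200 / ε) ≤ (t : ℝ) := exists_nat_ge _
  have ht9' : (9 : ℝ) ≤ t := le_trans (le_max_left _ _) ht9
  have htε : 1200 / ε ≤ (t : ℝ) := le_trans (le_max_right _ _) ht9
  have htn : 9 ≤ t := by exact_mod_cast ht9'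
  have hlog0 : 0 ≤ Real.log ((t : ℝ) + 1) := Real.log_nonneg (by linarith)
  obtain ⟨m, hm⟩ : ∃ m : ℕ, max 26 (96 * Real.log ((t : ℝ) + 1) / ε) ≤ (m : ℝ) := exists_nat_ge _
  have hm26 : (26 : ℝ) ≤ m := le_trans (le_max_left _ _) hm
  have hmε : 96 * Real.log ((t : ℝ) + 1) / ε ≤ (m : ℝ) := le_trans (le_max_right _ _) hm
  have hmn : 26 ≤ m := by exact_mod_cast hm26
  refine ⟨80 * t / ε + 1 / ε + 2 * m, ?_⟩
  intro n Δ M hn hΔ hM hdeg
  have hn0 : (0 : ℝ) < n := by exact_mod_cast hn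
  have hexp : ε * n + 1 ≤ Δ := le_trans (Real.add_one_le_exp _) hΔ
  have hεn : 0 < ε * n := by positivity
  have hΔ1 : 1 < Δ := by linarith
  have hΔ0 : 0 < Δ := by linarith
  by_cases hcase : m ≤ n
  · have hmr : (m : ℝ) ≤ n := by exact_mod_cast hcase
    have hlogΔ : ε * n ≤ Real.log Δ := by
      rw [Real.le_log_iff_exp_le hΔ0]; exact hΔ
    have hkey : (600 * (n : ℝ) / ((t : ℝ) + 1) ^ 2 + 48) * Real.log ((t : ℝ) + 1) ≤
        Real.log Δ := by
      refine le_trans ?_ hlogΔ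
      have ha : Real.log ((t : ℝ) + 1) ≤ (t : ℝ) + 1 := by
        have := Real.log_le_sub_one_of_pos (by linarith : (0 : ℝ) < (t : ℝ) + 1)
        linarith
      have hb : 600 * (n : ℝ) / ((t : ℝ) + 1) ^ 2 * Real.log ((t : ℝ) + 1) ≤ ε / 2 * n := by
        have h2 : 600 * (n : ℝ) / ((t : ℝ) + 1) ^ 2 * Real.log ((t : ℝ) + 1) ≤
            600 * (n : ℝ) / ((t : ℝ) + 1) ^ 2 * ((t : ℝ) + 1) :=
          mul_le_mul_of_nonneg_left ha (by positivity)
        refine le_trans h2 ?_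
        have h3 : 600 * (n : ℝ) / ((t : ℝ) + 1) ^ 2 * ((t : ℝ) + 1) =
            600 / ((t : ℝ) + 1) * n := by
          field_simp
        rw [h3]
        apply mul_le_mul_of_nonneg_right _ hn0.le
        rw [div_le_iff₀ (by positivity)]
        rw [div_le_iff₀ hε] at htε
        nlinarith
      have hc : 48 * Real.log ((t : ℝ) + 1) ≤ ε / 2 * n := by
        rw [div_le_iff₀ hε] at hmε
        nlinarith
      have hd : (600 * (n : ℝ) / ((t : ℝ) + 1) ^ 2 + 48) * Real.log ((t : ℝ) + 1) =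
        600 * (n : ℝ) / ((t : ℝ) + 1) ^ 2 * Real.log ((t : ℝ) + 1) +
          48 * Real.log ((t : ℝ) + 1) := by ring
      rw [hd]
      linarith
    refine h1 n t _ Δ M (le_trans hmn hcase) htn hΔ0 hkey hM hdeg ?_
    have he : 80 * (t : ℝ) * Δ / Real.log Δ ≤ 80 * t / ε * Δ / n := by
      have : 80 * (t : ℝ) / ε * Δ / n = 80 * t * Δ / (ε * n) := by field_simp
      rw [this]
      exact div_le_div_of_nonneg_left (by positivity) hεn hlogΔ
    have hf : 1 ≤ 1 / ε * Δ / n := by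
      rw [le_div_iff₀ hn0, one_mul, div_mul_eq_mul_div, one_mul, le_div_iff₀ hε]
      nlinarith
    have hg : 0 ≤ 2 * (m : ℝ) * Δ / n := by positivity
    have hh : (80 * t / ε + 1 / ε + 2 * m) * Δ / n =
        80 * t / ε * Δ / n + 1 / ε * Δ / n + 2 * (m : ℝ) * Δ / n := by ring
    have hi := Nat.lt_floor_add_one ((80 * t / ε + 1 / ε + 2 * m) * Δ / (n : ℝ))
    rw [hh] at hi ⊢
    linarith
  · push Not at hcase
    have hmr : (n : ℝ) ≤ m := by exact_mod_cast hcase.le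
    have h2 := ht n ⌊Δ⌋₊ M hM (fun x hx N hN => Nat.le_floor (hdeg x hx N hN))
    refine h2.mono ?_
    apply Nat.le_floor
    push_cast
    have h3 : (⌊Δ⌋₊ : ℝ) ≤ Δ := Nat.floor_le hΔ0.le
    have h4 : 2 * Δ ≤ 2 * (m : ℝ) * Δ / n := by
      rw [le_div_iff₀ hn0]
      nlinarith
    have h5 : 0 ≤ 80 * t / ε * Δ / n := by positivity
    have h6 : 0 ≤ 1 / ε * Δ / n := by positivity
    have hh : (80 * t / ε + 1 / ε + 2 * m) * Δ / n =
        80 * t / ε * Δ / n + 1 / ε * Δ / n + 2 * (m : ℝ) * Δ / n := by ring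
    rw [hh]
    linarith

end Pool.Agent.helper43.TG
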