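import Pool.Agent.helper43.TG.Spec

set_option autoImplicit false

/-!
# The closed form of the bound for all packings
-/

namespace Pool.Agent.helper43.TG

open Pool.Agent.helper70.Sachs (IsPacking touchingGraph chi)

/-- the closed form: one constant for all dimensions, all packings and all degree bounds -/
def TH4 : Prop := ∃ C : ℝ, ∀ (n : ℕ) (Δ : ℝ) (M : Set (E n)), 1 ≤ n → 2 ≤ Δ → IsPacking M →
  (∀ x ∈ M, ∀ N : Finset (E n), (∀ y ∈ N, y ∈ M ∧ dist y x = 2) → (N.card : ℝ) ≤ Δ) →
    (touchingGraph M).Colorable ⌊C * (Δ / Real.log Δ) *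
      (1 + Real.sqrt ((n / Real.log Δ) * Real.log (2 + n / Real.log Δ)))⌋₊

theorem TH4_log (x : ℝ) (hx : 0 < x) :
    Real.log (2 + x) ≤ 1 + Real.sqrt (x * Real.log (2 + x)) := by
  set a := Real.log (2 + x) with ha
  by_cases h1 : a ≤ 1
  · have := Real.sqrt_nonneg (x * a)
    linarith
  · push Not at h1
    have h2 : a - 1 ≤ x := by
      have h3 : Real.log ((2 + x) / Real.exp 1) ≤ (2 + x) / Real.exp 1 - 1 :=
        Real.log_le_sub_one_of_pos (by positivity)
      rw [Real.log_div (by positivity) (Real.exp_pos 1).ne', Real.log_exp] at h3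
      have h4 : (2 + x) / Real.exp 1 ≤ 1 + x := by
        rw [div_le_iff₀ (Real.exp_pos 1)]
        have := Real.add_one_le_exp (1 : ℝ)
        nlinarith
      linarith
    have h5 : (a - 1) ^ 2 ≤ x * a := by nlinarith
    have h6 : a - 1 ≤ Real.sqrt (x * a) := Real.le_sqrt_of_sq_le h5
    linarith

theorem t_th4 (h1 : TH1) (ht : TRV) (hd : DEG) (hg : KGR) (hk : KBD) : TH4 := by
  refine ⟨3 ^ 26 + 10000, ?_⟩
  intro n Δ M hn hΔ hM hdeg
  set L := Real.log Δ with hL
  have hΔ0 : 0 < Δ := by linarith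
  have hL0 : 0 < L := Real.log_pos (by linarith)
  have hLΔ : L ≤ Δ := by
    have := Real.log_le_sub_one_of_pos hΔ0
    linarith
  have hq : 1 ≤ Δ / L := by rwa [le_div_iff₀ hL0, one_mul]
  have hn0 : (0 : ℝ) < n := by exact_mod_cast hn
  set x : ℝ := n / L with hx
  have hx0 : 0 < x := by positivity
  set a := Real.log (2 + x) with ha
  have ha0 : 0 < a := Real.log_pos (by linarith)
  set w := Real.sqrt (x * a) with hw
  have hw0 : 0 ≤ w := Real.sqrt_nonneg _
  have hww : w ^ 2 = x * a := Real.sq_sqrt (by positivity)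
  have hprod : 1 ≤ (Δ / L) * (1 + w) := by nlinarith
  by_cases hn26 : n < 26
  · have htau : tau n ≤ 3 ^ n := by
      obtain ⟨S, hS, hSc⟩ := (hg n).1
      rw [← hSc]; exact hk n S hS
    have h26 : 3 ^ n ≤ 3 ^ 26 := Nat.pow_le_pow_right (by norm_num) hn26.le
    have hcol := ht n (3 ^ 26) M hM (fun z hz N hN => by
      refine le_trans (hd n N z (fun y hy => (hN y hy).2) ?_) (le_trans htau h26)
      intro y hy y' hy' hne
      exact hM y (hN y hy).1 y' (hN y' hy').1 hne)
    refine hcol.mono ?_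
    apply Nat.le_floor
    push_cast
    have h2 : (3 ^ 26 + 10000 : ℝ) * 1 ≤ (3 ^ 26 + 10000) * ((Δ / L) * (1 + w)) :=
      mul_le_mul_of_nonneg_left hprod (by positivity)
    have h3 : (3 ^ 26 + 10000 : ℝ) * (Δ / L) * (1 + w) =
      (3 ^ 26 + 10000) * ((Δ / L) * (1 + w)) := by ring
    rw [h3]
    linarith
  push Not at hn26
  -- the parameter t
  set t : ℕ := ⌈120 * w⌉₊ + 9 with htdef
  have ht9 : 9 ≤ t := by omega
  have ht1 : 120 * w + 9 ≤ (t : ℝ) := by
    have := Nat.le_ceil (120 * w)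
    rw [htdef]; push_cast; linarith
  have ht2 : (t : ℝ) ≤ 120 * w + 10 := by
    have := Nat.ceil_lt_add_one (a := 120 * w) (by positivity)
    rw [htdef]; push_cast; linarith
  set y : ℝ := (t : ℝ) + 1 with hy
  have hy0 : 0 < y := by positivity
  have hax : a ≤ 1 + x := by
    have := Real.log_le_sub_one_of_pos (show (0 : ℝ) < 2 + x by linarith)
    linarith
  have hwx : w ≤ 1 + x := by
    refine Real.sqrt_le_iff.2 ⟨by linarith, ?_⟩
    nlinarith
  have hy2 : y ≤ 131 * (2 + x) := by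
    rw [hy]; linarith
  have hlog131 : Real.log 131 ≤ 7.04 * Real.log 2 := by
    have h2 : Real.log 131 ≤ Real.log ((2 : ℝ) ^ (7.04 : ℝ)) := by
      apply Real.log_le_log (by norm_num)
      have h3 : (131 : ℝ) ^ (25 : ℕ) ≤ ((2 : ℝ) ^ (7.04 : ℝ)) ^ (25 : ℕ) := by
        rw [← Real.rpow_natCast ((2 : ℝ) ^ (7.04 : ℝ)), ← Real.rpow_mul (by norm_num)]
        have : (7.04 : ℝ) * ((25 : ℕ) : ℝ) = ((176 : ℕ) : ℝ) := by norm_num
        rw [this, Real.rpow_natCast]
        norm_num
      exact le_of_pow_le_pow_left₀ (by norm_num) (by positivity) h3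
    rwa [Real.log_rpow (by norm_num)] at h2
  have hlog2 : Real.log 2 ≤ a := by
    apply Real.log_le_log (by norm_num); linarith
  have hly : Real.log y ≤ 8.04 * a := by
    have h2 : Real.log y ≤ Real.log (131 * (2 + x)) := Real.log_le_log hy0 hy2
    rw [Real.log_mul (by norm_num) (by linarith)] at h2
    have : Real.log 131 ≤ 7.04 * a := le_trans hlog131 (by linarith)
    linarith
  have hly0 : 0 ≤ Real.log y := Real.log_nonneg (by rw [hy]; linarith [hw0])
  by_cases hcase : 96 * Real.log y ≤ L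
  · -- main case
    have hkey : (600 * (n : ℝ) / ((t : ℝ) + 1) ^ 2 + 48) * Real.log ((t : ℝ) + 1) ≤ L := by
      rw [← hy]
      have hxL : (n : ℝ) = x * L := by rw [hx]; field_simp
      have h2 : 600 * (n : ℝ) / y ^ 2 * Real.log y ≤ L / 2 := by
        have h3 : 1200 * x * Real.log y ≤ y ^ 2 := by
          have h4 : 1200 * x * Real.log y ≤ 1200 * x * (8.04 * a) :=
            mul_le_mul_of_nonneg_left hly (by positivity)
          have h5 : (120 * w) ^ 2 ≤ y ^ 2 := by
            apply pow_le_pow_left₀ (by positivity)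
            rw [hy]; linarith
          have h6 : (120 * w) ^ 2 = 14400 * (x * a) := by rw [mul_pow, hww]; norm_num
          nlinarith
        rw [hxL]
        rw [div_mul_eq_mul_div, div_le_iff₀ (by positivity)]
        nlinarith
      have h7 : (600 * (n : ℝ) / y ^ 2 + 48) * Real.log y =
          600 * (n : ℝ) / y ^ 2 * Real.log y + 48 * Real.log y := by ring
      rw [h7]
      linarith
    refine h1 n t _ Δ M hn26 ht9 hΔ0 hkey hM hdeg ?_
    have h2 : 80 * (t : ℝ) * Δ / Real.log Δ ≤ 9600 * ((Δ / L) * (1 + w)) := by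
      rw [← hL]
      have h3 : 80 * (t : ℝ) * Δ / L = (80 * t) * (Δ / L) := by ring
      rw [h3]
      have h4 : 80 * (t : ℝ) ≤ 9600 * (1 + w) := by linarith
      have h5 : 0 ≤ Δ / L := by positivity
      nlinarith
    have h3 : (3 ^ 26 + 10000 : ℝ) * (Δ / L) * (1 + w) =
      (3 ^ 26 + 10000) * ((Δ / L) * (1 + w)) := by ring
    have h4 := Nat.lt_floor_add_one ((3 ^ 26 + 10000 : ℝ) * (Δ / L) * (1 + w))
    rw [h3] at h4 ⊢
    nlinarith
  · push Not at hcase
    have h2 : L ≤ 772 * (1 + w) := by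
      have h3 := TH4_log x hx0
      nlinarith
    have h3 := ht n ⌊Δ⌋₊ M hM (fun z hz N hN => Nat.le_floor (hdeg z hz N hN))
    refine h3.mono ?_
    apply Nat.le_floor
    push_cast
    have h4 : (⌊Δ⌋₊ : ℝ) ≤ Δ := Nat.floor_le hΔ0.le
    have h5 : Δ = (Δ / L) * L := by field_simp
    have h6 : (Δ / L) * L ≤ (Δ / L) * (772 * (1 + w)) :=
      mul_le_mul_of_nonneg_left h2 (by positivity)
    have h7 : (3 ^ 26 + 10000 : ℝ) * (Δ / L) * (1 + w) =
      (3 ^ 26 + 10000) * ((Δ / L) * (1 + w)) := by ring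
    rw [h7]
    nlinarith

end Pool.Agent.helper43.TG
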