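import Pool.Agent.helper43.TG.UPD
import Pool.Agent.helper74.TG.FEW
import Pool.Agent.helper32.TG.HYB
import Pool.Agent.helper79.TG.JEN
import Pool.Agent.helper34.TG.STP
import Pool.Agent.helper99.TG.COL
import Pool.Agent.helper82.TG.NUM
import Pool.Agent.helper14.TG.AKS
import Pool.Agent.helper57.TG.GRD
import Pool.Agent.helper79.TG.CNT
import Pool.Agent.helper43.TG.CEN
import Pool.Agent.helper67.TG.TEN
import Pool.Agent.helper93.TG.WEL
import Pool.Agent.helper43.TG.KUP
import Pool.Agent.helper43.TG.PAR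
import Pool.Agent.helper14.TG.KTB
import Pool.Agent.helper8.TG.SPA
import Pool.Agent.helper43.TG.KBD
import Pool.Agent.helper82.TG.KGR
import Pool.Agent.helper99.TG.KLB
import Pool.Agent.helper93.TG.DEG
import Pool.Agent.helper43.TG.CPT
import Pool.Agent.helper40.TG.TH1
import Pool.Agent.helper79.TG.TRV
import Pool.Agent.helper43.TG.TAL
import Pool.Agent.helper72.TG.TH2
import Pool.Agent.helper43.TG.TH3
import Pool.Agent.helper43.TG.TH4

set_option autoImplicit false

/-!
# Assembly of the rows tg:* (MP_facb47_co)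
-/

namespace Pool.Agent.helper43.TG

theorem top_stp : STP := t_stp t_upd (t_few t_upd) (t_hyb t_upd) t_jen

theorem top_aks : AKS := t_aks (t_col top_stp) t_num

theorem top_ktb : KTB := t_ktb t_cen (t_kup (t_wel t_ten)) t_par

theorem top_th1 : TH1 := t_th1 top_aks (t_spa t_cnt top_ktb) t_cpt

theorem top_kgr : KGR := t_kgr t_kbd

theorem top_trv : TRV := t_trv t_grd t_cpt

theorem top_th2 : TH2 := t_th2 top_th1 top_trv (t_klb top_kgr) (t_deg top_kgr) t_tal

theorem top_th3 : TH3 := t_th3 top_th1 top_trv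

theorem top_th4 : TH4 := t_th4 top_th1 top_trv (t_deg top_kgr) top_kgr t_kbd

end Pool.Agent.helper43.TG
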