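import Pool.Agent.helper43.TG.Spec

set_option autoImplicit false

namespace Pool.Agent.helper43.TG

theorem UPD_free_update (V : Type) [Fintype V] [DecidableEq V] (G : SimpleGraph V)
    [DecidableRel G.Adj] (k : ℕ) (S : Finset V) (v u : V) (c : V → Fin k) (a : Fin k)
    (hv : v ∉ S) : free G k S (Function.update c v a) u = free G k S c u := by
  unfold free
  refine Finset.filter_congr fun g _ => ?_
  refine forall₂_congr fun y hy => ?_
  have : y ≠ v := fun h => hv (h ▸ hy)
  rw [Function.update_of_ne this]

theorem UPD_prop_update (V : Type) [Fintype V] [DecidableEq V] (G : SimpleGraph V)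
    [DecidableRel G.Adj] (k : ℕ) (S : Finset V) (v : V) (c : V → Fin k) (a : Fin k)
    (hv : v ∉ S) : Function.update c v a ∈ prop G k S ↔ c ∈ prop G k S := by
  unfold prop
  simp only [Finset.mem_filter, Finset.mem_univ, true_and]
  refine forall₂_congr fun x hx => forall₂_congr fun y hy => ?_
  have h1 : x ≠ v := fun h => hv (h ▸ hx)
  have h2 : y ≠ v := fun h => hv (h ▸ hy)
  rw [Function.update_of_ne h1, Function.update_of_ne h2]

theorem UPD_prop_insert (V : Type) [Fintype V] [DecidableEq V] (G : SimpleGraph V)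
    [DecidableRel G.Adj] (k : ℕ) (S : Finset V) (v : V) (c : V → Fin k) :
    c ∈ prop G k (insert v S) ↔ c ∈ prop G k S ∧ c v ∈ free G k S c v := by
  unfold prop free
  simp only [Finset.mem_filter, Finset.mem_univ, true_and]
  constructor
  · intro h
    refine ⟨fun x hx y hy => h x (Finset.mem_insert_of_mem hx) y (Finset.mem_insert_of_mem hy), ?_⟩
    intro y hy hvy
    exact (h v (Finset.mem_insert_self _ _) y (Finset.mem_insert_of_mem hy) hvy).symm
  · rintro ⟨h, h'⟩ x hx y hy hxy
    rcases Finset.mem_insert.1 hx with rfl | hx'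
    · rcases Finset.mem_insert.1 hy with rfl | hy
      · exact absurd hxy (G.loopless.irrefl _)
      · exact (h' y hy hxy).symm
    · rcases Finset.mem_insert.1 hy with rfl | hy'
      · exact h' x hx' hxy.symm
      · exact h x hx' y hy' hxy

theorem t_upd : UPD := by
  intro V _ _ G _ k S v F hv
  have h1 : (k : ℝ) * ∑ c ∈ prop G k (insert v S), F c =
      ∑ q ∈ prop G k (insert v S) ×ˢ (Finset.univ : Finset (Fin k)), F q.1 := by
    rw [Finset.sum_product]
    simp [Finset.mul_sum]
  rw [h1, Finset.sum_sigma' (prop G k S)]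
  refine Finset.sum_bij' (fun q _ => ⟨Function.update q.1 v q.2, q.1 v⟩)
    (fun q _ => (Function.update q.1 v q.2, q.1 v)) ?_ ?_ ?_ ?_ ?_
  · rintro ⟨c, a⟩ hq
    simp only [Finset.mem_product, Finset.mem_univ, and_true] at hq
    have := (UPD_prop_insert V G k S v c).1 hq
    simp only [Finset.mem_sigma]
    refine ⟨(UPD_prop_update V G k S v c a hv).2 this.1, ?_⟩
    rw [UPD_free_update V G k S v v c a hv]
    exact this.2
  · rintro ⟨c, g⟩ hq
    simp only [Finset.mem_sigma] at hq
    simp only [Finset.mem_product, Finset.mem_univ, and_true]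
    rw [UPD_prop_insert, UPD_prop_update V G k S v c g hv, UPD_free_update V G k S v v c g hv,
      Function.update_self]
    exact hq
  · rintro ⟨c, a⟩ _
    simp
  · rintro ⟨c, g⟩ _
    simp
  · rintro ⟨c, a⟩ _
    simp

end Pool.Agent.helper43.TG
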